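import Pool.Agent.Helper72.FC.Gen

/-!
# The Lipschitz-free space over `c₀` is not isomorphic to Pełczyński's universal basis space

This settles Q2 of `MP_ebafbb_an` in the negative.  We also record the reason: no `ℓ_p` with
`1 < p < 2` is isomorphic to a complemented subspace of `F(c₀)`.
-/

namespace Pool.Agent.Results.MP_ebafbb_an.NotUniversalBasis

open Filter Topology
open scoped ENNReal NNReal

noncomputable section

/-- `(F, δ)` realises the Lipschitz-free space over `c₀` (through its universal property, exactly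
the conditions used in the frozen statement `S06571`). -/
structure IsFreeOverC0 (F : Type) [NormedAddCommGroup F] [NormedSpace ℝ F]
    (δ : ZeroAtInftyContinuousMap ℕ ℝ → F) : Prop where
  /-- base point -/
  base : δ 0 = 0
  /-- `δ` is `1`-Lipschitz -/
  lip : LipschitzWith 1 δ
  /-- the range of `δ` spans a dense subspace -/
  dense : Dense ((Submodule.span ℝ (Set.range δ) : Submodule ℝ F) : Set F)
  /-- Lipschitz functions vanishing at the base point extend to functionals -/
  ext : ∀ (K : ℝ≥0) (f : ZeroAtInftyContinuousMap ℕ ℝ → ℝ), LipschitzWith K f → f 0 = 0 →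
        ∃ φ : F →L[ℝ] ℝ, ‖φ‖ ≤ (K : ℝ) ∧ ∀ x, φ (δ x) = f x

/-- Two sequences in normed spaces are equivalent: the norms of all corresponding finite linear
combinations are comparable. -/
def SeqEquivalent {X Y : Type} [NormedAddCommGroup X] [NormedSpace ℝ X]
    [NormedAddCommGroup Y] [NormedSpace ℝ Y] (x : ℕ → X) (y : ℕ → Y) : Prop :=
  ∃ C : ℝ, ∀ (s : Finset ℕ) (a : ℕ → ℝ),
    ‖∑ n ∈ s, a n • y n‖ ≤ C * ‖∑ n ∈ s, a n • x n‖ ∧
    ‖∑ n ∈ s, a n • x n‖ ≤ C * ‖∑ n ∈ s, a n • y n‖

/-- The closed linear span of a sequence. -/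
def closedSpan {Y : Type} [NormedAddCommGroup Y] [NormedSpace ℝ Y] (y : ℕ → Y) : Submodule ℝ Y :=
  (Submodule.span ℝ (Set.range y)).topologicalClosure

/-- `P` is a universal basis space (Pełczyński): it has a Schauder basis `u` such that every
*normalised* Schauder basis of every Banach space is equivalent to a subsequence of `u` whose closed
linear span is complemented in `P`.  (Asking this only for normalised bases makes the hypothesis on
`P` weaker, hence the theorem stronger.) -/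
def IsUniversalBasisSpace (P : Type) [NormedAddCommGroup P] [NormedSpace ℝ P] : Prop :=
  ∃ u : SchauderBasis ℝ P,
    ∀ (X : Type) [NormedAddCommGroup X] [NormedSpace ℝ X] [CompleteSpace X]
      (b : SchauderBasis ℝ X), (∀ n, ‖b n‖ = 1) →
      ∃ k : ℕ → ℕ, StrictMono k ∧ SeqEquivalent (fun n => b n) (fun n => u (k n)) ∧
        (closedSpan (fun n => u (k n))).ClosedComplemented

/-- `V` is isomorphic to a complemented subspace of `F` (the identity of `V` factors through
`F`). -/
def IsoToComplemented (V F : Type) [NormedAddCommGroup V] [NormedSpace ℝ V]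
    [NormedAddCommGroup F] [NormedSpace ℝ F] : Prop :=
  ∃ (S : V →L[ℝ] F) (T : F →L[ℝ] V), ∀ w, T (S w) = w

/-- Signed sums of `n` terms of the sequence `y` have norm at most `c n`. -/
def SignBound {Y : Type} [NormedAddCommGroup Y] [NormedSpace ℝ Y] (y : ℕ → Y) (c : ℕ → ℝ) : Prop :=
  ∀ (s : Finset ℕ) (σ : ℕ → ℝ), (∀ k, |σ k| ≤ 1) → ‖∑ k ∈ s, σ k • y k‖ ≤ c s.card

/-- `V` carries vectors `v k` and functionals `g k` with `g k (v k) = 1` whose signed sums of `n`
terms have norms `o(n)` and `o(√n)` respectively. -/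
def HasSmallSystem (V : Type) [NormedAddCommGroup V] [NormedSpace ℝ V] : Prop :=
  ∃ (v : ℕ → V) (g : ℕ → V →L[ℝ] ℝ) (a b : ℕ → ℝ), (∀ k, g k (v k) = 1) ∧
    SignBound v b ∧ SignBound g a ∧
    Tendsto (fun n : ℕ => b n / n) atTop (𝓝 0) ∧
    Tendsto (fun n : ℕ => a n / Real.sqrt n) atTop (𝓝 0)

open Pool.Agent.Helper72.FC

theorem IsFreeOverC0.isFree {F : Type} [NormedAddCommGroup F] [NormedSpace ℝ F]
    {δ : ZeroAtInftyContinuousMap ℕ ℝ → F} (h : IsFreeOverC0 F δ) : IsFree c0 F δ :=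
  ⟨h.base, h.lip, h.dense, h.ext⟩

/-- the unit vector basis of `ℓ_p` -/
def lpBasis (p : ℝ≥0∞) [Fact (1 ≤ p)] (hp : p ≠ ∞) : SchauderBasis ℝ (Lsp p) where
  basis := fun n => lp.single p n (1:ℝ)
  coord := fun n => lp.evalCLM ℝ (fun _ : ℕ => ℝ) p n
  ortho := fun i j => by
    show (lp.single p j (1:ℝ) : Lsp p) i = _
    simp [Pi.single_apply]
  expansion := fun x => by
    have h1 : HasSum (fun i : ℕ => lp.single p i (x i : ℝ)) x := lp.hasSum_single hp x
    have h2 : (fun i : ℕ => (lp.evalCLM ℝ (fun _ : ℕ => ℝ) p i) x • (lp.single p i (1:ℝ) : Lsp p)) =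
        (fun i : ℕ => lp.single p i (x i : ℝ)) := by
      funext i
      show (x i) • (lp.single p i (1:ℝ) : Lsp p) = _
      rw [← lp.single_smul, smul_eq_mul, mul_one]
    rw [h2]
    exact h1.mono_left SummationFilter.le_atTop

/-- A universal basis space contains a complemented copy of every Banach space with a normalised
basis whose finite linear combinations are dense. -/
theorem complemented_copy {P X : Type} [NormedAddCommGroup P] [NormedSpace ℝ P] [CompleteSpace P]
    [NormedAddCommGroup X] [NormedSpace ℝ X] [CompleteSpace X] {x : ℕ → X} {y : ℕ → P}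
    (hx : DenseRange (Finsupp.linearCombination ℝ x)) (hxy : SeqEquivalent x y)
    (hy : (closedSpan y).ClosedComplemented) :
    ∃ (S : X →L[ℝ] P) (T : P →L[ℝ] X), ∀ v, T (S v) = v := by
  obtain ⟨C, hC⟩ := hxy
  obtain ⟨Q, hQ⟩ := hy
  have hmem : ∀ a : ℕ →₀ ℝ, Finsupp.linearCombination ℝ y a ∈ closedSpan y := by
    intro a
    apply Submodule.le_topologicalClosure
    rw [Finsupp.mem_span_range_iff_exists_finsupp]
    exact ⟨a, rfl⟩
  let e' : (ℕ →₀ ℝ) →ₗ[ℝ] closedSpan y := (Finsupp.linearCombination ℝ y).codRestrict _ hmem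
  have he' : DenseRange e' := by
    intro z
    rw [Metric.mem_closure_iff]
    intro ε hε
    have hz : (z : P) ∈ closure ((Submodule.span ℝ (Set.range y) : Submodule ℝ P) : Set P) := z.2
    obtain ⟨w, hw, hzw⟩ := Metric.mem_closure_iff.1 hz ε hε
    obtain ⟨a, ha⟩ := (Finsupp.mem_span_range_iff_exists_finsupp).1 hw
    refine ⟨e' a, ⟨a, rfl⟩, ?_⟩
    have : ((e' a : closedSpan y) : P) = w := ha
    rw [Subtype.dist_eq, this]
    exact hzw
  have hb1 : ∀ a : ℕ →₀ ℝ, ‖Finsupp.linearCombination ℝ y a‖ ≤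
      C * ‖Finsupp.linearCombination ℝ x a‖ := fun a => (hC a.support a).1
  have hb2 : ∀ a : ℕ →₀ ℝ, ‖Finsupp.linearCombination ℝ x a‖ ≤ C * ‖e' a‖ := fun a =>
    (hC a.support a).2
  let S : X →L[ℝ] P := (Finsupp.linearCombination ℝ y).extendOfNorm (Finsupp.linearCombination ℝ x)
  let R : closedSpan y →L[ℝ] X := (Finsupp.linearCombination ℝ x).extendOfNorm e'
  have hS : ∀ a, S (Finsupp.linearCombination ℝ x a) = Finsupp.linearCombination ℝ y a :=
    fun a => LinearMap.extendOfNorm_eq hx ⟨C, hb1⟩ a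
  have hR : ∀ a, R (e' a) = Finsupp.linearCombination ℝ x a :=
    fun a => LinearMap.extendOfNorm_eq he' ⟨C, hb2⟩ a
  refine ⟨S, R.comp Q, ?_⟩
  have hcont : Continuous fun v => (R.comp Q) (S v) := ((R.comp Q).comp S).continuous
  refine hx.induction (P := fun v => (R.comp Q) (S v) = v) ?_ (isClosed_eq hcont continuous_id)
  rintro _ ⟨a, rfl⟩
  rw [hS, ContinuousLinearMap.comp_apply]
  have h1 := hQ (e' a)
  have h2 : ((e' a : closedSpan y) : P) = Finsupp.linearCombination ℝ y a := rfl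
  rw [h2] at h1
  rw [h1, hR]

theorem lp_dense (p : ℝ≥0∞) [Fact (1 ≤ p)] (hp : p ≠ ∞) :
    DenseRange (Finsupp.linearCombination ℝ (fun n => (lp.single p n (1:ℝ) : Lsp p))) := by
  intro x
  have h1 : HasSum (fun i : ℕ => lp.single p i (x i : ℝ)) x := lp.hasSum_single hp x
  refine mem_closure_of_tendsto h1 (Eventually.of_forall fun s => ?_)
  have h2 : ∑ i ∈ s, lp.single p i (x i : ℝ) ∈
      Submodule.span ℝ (Set.range (fun n => (lp.single p n (1:ℝ) : Lsp p))) := by
    refine Submodule.sum_mem _ fun i _ => ?_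
    have h3 : (lp.single p i (x i : ℝ) : Lsp p) = (x i) • lp.single p i (1:ℝ) := by
      rw [← lp.single_smul, smul_eq_mul, mul_one]
    rw [h3]
    exact Submodule.smul_mem _ _ (Submodule.subset_span ⟨i, rfl⟩)
  obtain ⟨a, ha⟩ := (Finsupp.mem_span_range_iff_exists_finsupp).1 h2
  exact ⟨a, ha⟩

/-- **Theorem.** Let `(F, δ)` be the Lipschitz-free space over `c₀`.
(1) Let `V` be a normed space with vectors `v k` and functionals `g k`, `g k (v k) = 1`, such that
signed sums of `n` of the `v k` have norm `≤ b n = o(n)` and signed sums of `n` of the `g k` have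
norm `≤ a n = o(√n)`.  Then `V` is not isomorphic to a complemented subspace of `F`.
(2) In particular this holds for `V = ℓ_p`, `1 < p < 2`.
(3) `F` is not isomorphic to Pełczyński's universal basis space. -/
theorem result (F : Type) [NormedAddCommGroup F] [NormedSpace ℝ F] [CompleteSpace F]
    (δ : ZeroAtInftyContinuousMap ℕ ℝ → F) (hF : IsFreeOverC0 F δ) :
    (∀ (V : Type) [NormedAddCommGroup V] [NormedSpace ℝ V],
      HasSmallSystem V → ¬ IsoToComplemented V F) ∧
    (∀ (p : ℝ≥0∞) [Fact (1 ≤ p)], 1 < p → p < 2 →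
      ¬ IsoToComplemented (lp (fun _ : ℕ => ℝ) p) F) ∧
    (∀ (P : Type) [NormedAddCommGroup P] [NormedSpace ℝ P] [CompleteSpace P],
      IsUniversalBasisSpace P → IsEmpty (F ≃L[ℝ] P)) := by
  have part1 : ∀ (p : ℝ≥0∞) [Fact (1 ≤ p)], 1 < p → p < 2 →
      ¬ IsoToComplemented (lp (fun _ : ℕ => ℝ) p) F := by
    rintro p _ h1 h2 ⟨S, T, hTS⟩
    exact lp_not_complemented hF.isFree c0.approx h1 h2 S T hTS
  refine ⟨?_, part1, ?_⟩
  · rintro V _ _ ⟨v, g, a, b, hgv, hv, hg, hb, ha⟩ ⟨S, T, hTS⟩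
    exact gen_not_complemented hF.isFree c0.approx v g a b hgv hv hg hb ha S T hTS
  intro P _ _ _ hP
  refine ⟨fun Φ => ?_⟩
  obtain ⟨u, hu⟩ := hP
  -- take `p = 4/3`
  have hp43 : (1 : ℝ≥0∞) < ENNReal.ofReal (4 / 3) := by
    rw [← ENNReal.ofReal_one]
    exact (ENNReal.ofReal_lt_ofReal_iff (by norm_num)).2 (by norm_num)
  have hp43' : ENNReal.ofReal (4 / 3) < 2 := by
    rw [show (2 : ℝ≥0∞) = ENNReal.ofReal 2 by simp]
    exact (ENNReal.ofReal_lt_ofReal_iff (by norm_num)).2 (by norm_num)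
  have : Fact ((1 : ℝ≥0∞) ≤ ENNReal.ofReal (4 / 3)) := ⟨hp43.le⟩
  have hpt : ENNReal.ofReal (4 / 3) ≠ ∞ := ENNReal.ofReal_ne_top
  obtain ⟨k, -, hequiv, hcompl⟩ := hu (Lsp (ENNReal.ofReal (4 / 3))) (lpBasis _ hpt) (fun n => by
    show ‖(lp.single (ENNReal.ofReal (4 / 3)) n (1:ℝ) : Lsp (ENNReal.ofReal (4 / 3)))‖ = 1
    rw [lp.norm_single (by positivity)]; simp)
  obtain ⟨S, T, hTS⟩ := complemented_copy (x := fun n => lpBasis _ hpt n) (lp_dense _ hpt)
    hequiv hcompl
  refine part1 _ hp43 hp43' ⟨(Φ.symm : P →L[ℝ] F).comp S, T.comp (Φ : F →L[ℝ] P), fun v => ?_⟩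
  simp [hTS]

end

end Pool.Agent.Results.MP_ebafbb_an.NotUniversalBasis
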